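import Pool.Agent.V119.GQ.Rat

set_option autoImplicit false

/-! # The results for the definitions of `GonP` -/

namespace Pool.Agent.V119.GQ

open GonP

variable {F : Type} [Field F]

theorem ofD_low (D : H39Gon.Differentials F) (h4 : ∀ j, Function.Exact (D.d 0 j) (D.e (j + 1)))
    (h5 : ∀ j, Function.Surjective (D.e j)) :
    (∀ j, Function.Exact ((ofD D).d 0 j) ((ofD D).e (j + 1))) ∧
      ∀ j, Function.Surjective ((ofD D).e j) := by
  refine ⟨fun j => ?_, fun j => ?_⟩
  · exact exact_conj (eT F 1 j) (eT F 0 (j + 1)) (eLQ F (j + 3)) _ _ (h4 j)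
  · exact (eLQ F (j + 2)).symm.surjective.comp ((h5 j).comp (eT F 0 j).surjective)

theorem ofD_inj (D : H39Gon.Differentials F) (h1 : ∀ m, Function.Injective (D.d m 0))
    (h2 : Function.Injective (D.e 0)) :
    (∀ m, Function.Injective ((ofD D).d m 0)) ∧ Function.Injective ((ofD D).e 0) := by
  refine ⟨fun m => ?_, ?_⟩
  · exact (eT F m 1).symm.injective.comp ((h1 m).comp (eT F (m + 1) 0).injective)
  · exact (eLQ F 2).symm.injective.comp (h2.comp (eT F 0 0).injective)

/-- the inverse transport -/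
noncomputable def toD (D : Differentials F) : H39Gon.Differentials F where
  d m j := (eT F m (j + 1)).toLinearMap ∘ₗ ((D.d_spec m j).1.mk' (D.d m j)) ∘ₗ
    (eT F (m + 1) j).symm.toLinearMap
  d_inf m j y := by
    change eT F m (j + 1) (D.d m j ((eT F (m + 1) j).symm (H39Gon.tq F (m + 3) j none y))) = 0
    rw [show (eT F (m + 1) j).symm (H39Gon.tq F (m + 3) j none y) = tq (m + 3) j none y from
      eT_symm_tq (m + 1) j none y, (D.d_spec m j).2.1, map_zero]
  d_zero m j y := by
    change eT F m (j + 1) (D.d m j ((eT F (m + 1) j).symm (H39Gon.tq F (m + 3) j (some 0) y))) = 0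
    rw [show (eT F (m + 1) j).symm (H39Gon.tq F (m + 3) j (some 0) y) = tq (m + 3) j (some 0) y from
      eT_symm_tq (m + 1) j (some 0) y, (D.d_spec m j).2.2.1, map_zero]
  d_some m j x y hx := by
    change eT F m (j + 1) (D.d m j ((eT F (m + 1) j).symm (H39Gon.tq F (m + 3) j (some x) y))) = _
    rw [show (eT F (m + 1) j).symm (H39Gon.tq F (m + 3) j (some x) y) = tq (m + 3) j (some x) y from
      eT_symm_tq (m + 1) j (some x) y, (D.d_spec m j).2.2.2 x y hx]
    exact eT_tq m (j + 1) _ _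
  e j := (eLQ F (j + 2)).toLinearMap ∘ₗ ((D.e_spec j).1.mk' (D.e j)) ∘ₗ
    (eT F 0 j).symm.toLinearMap
  e_inf j y := by
    change eLQ F (j + 2) (D.e j ((eT F 0 j).symm (H39Gon.tq F 2 j none y))) = 0
    rw [show (eT F 0 j).symm (H39Gon.tq F 2 j none y) = tq 2 j none y from
      eT_symm_tq 0 j none y, (D.e_spec j).2.1, map_zero]
  e_zero j y := by
    change eLQ F (j + 2) (D.e j ((eT F 0 j).symm (H39Gon.tq F 2 j (some 0) y))) = 0
    rw [show (eT F 0 j).symm (H39Gon.tq F 2 j (some 0) y) = tq 2 j (some 0) y from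
      eT_symm_tq 0 j (some 0) y, (D.e_spec j).2.2.1, map_zero]
  e_one j y := by
    change eLQ F (j + 2) (D.e j ((eT F 0 j).symm (H39Gon.tq F 2 j (some 1) y))) = 0
    rw [show (eT F 0 j).symm (H39Gon.tq F 2 j (some 1) y) = tq 2 j (some 1) y from
      eT_symm_tq 0 j (some 1) y, (D.e_spec j).2.2.2.1, map_zero]
  e_some j x y hx hx1 := by
    change eLQ F (j + 2) (D.e j ((eT F 0 j).symm (H39Gon.tq F 2 j (some x) y))) = _
    rw [show (eT F 0 j).symm (H39Gon.tq F 2 j (some x) y) = tq 2 j (some x) y from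
      eT_symm_tq 0 j (some x) y, (D.e_spec j).2.2.2.2 x y hx hx1]
    exact eLQ_lq (j + 2) _

theorem toD_inj (D : Differentials F) (h : Function.Injective (D.e 0)) :
    Function.Injective ((toD D).e 0) :=
  (eLQ F 2).injective.comp (h.comp (eT F 0 0).symm.injective)

theorem of_toD (D : Differentials F) : ofD (toD D) = D := unique D (ofD (toD D))

/-- The fields `k(x)`, `k` algebraic over `F_p`. -/
theorem fun_P (p : ℕ) [Fact p.Prime] (k : Type) [Field k] [Algebra (ZMod p) k]
    [Algebra.IsAlgebraic (ZMod p) k] :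
    ∃ D : Differentials (RatFunc k), (∀ D' : Differentials (RatFunc k), D' = D) ∧
      (∀ m, Function.Injective (D.d m 0)) ∧ Function.Injective (D.e 0) ∧
      (∀ j, Function.Exact (D.d 0 j) (D.e (j + 1))) ∧ ∀ j, Function.Surjective (D.e j) := by
  obtain ⟨⟨D⟩, h⟩ := low_main p k
  obtain ⟨h1, h2, h3, h4⟩ := h D
  exact ⟨ofD D, fun D' => unique (ofD D) D', (ofD_inj D h1 h2).1, (ofD_inj D h1 h2).2,
    (ofD_low D h3 h4).1, (ofD_low D h3 h4).2⟩

/-- The field `ℚ`. -/
theorem rat_P (D : Differentials ℚ) :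
    (∀ j, Function.Surjective (D.e j)) ∧
      (Function.Injective (D.e 0) → ∀ j, Function.Exact (D.d 0 j) (D.e (j + 1))) := by
  constructor
  · have h := surj_e (toD D) Y775.W3.span_rat.1
    intro j
    have h2 : Function.Surjective ((ofD (toD D)).e j) :=
      (eLQ ℚ (j + 2)).symm.surjective.comp ((h j).comp (eT ℚ 0 j).surjective)
    rwa [of_toD] at h2
  · intro hD
    obtain ⟨h3, h4⟩ := rat_main (toD D) (toD_inj D hD)
    have h2 := (ofD_low (toD D) h3 h4).1
    rwa [of_toD] at h2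

end Pool.Agent.V119.GQ
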