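import Pool.Agent.H39R2.GonP.Bridge
import Pool.Agent.Y775.W3.All

set_option autoImplicit false

/-! # The degrees `1`, `n - 1` and `n` of the complexes `Γ(F, n) ⊗ ℚ`

`step_d0` and `step_e'` are the steps of `Pool/Agent/H39R2/Gon/E2.lean` with the part of `SpanDual` which
they need. -/

namespace Pool.Agent.V119.GQ

open scoped TensorProduct
open Polynomial H39Gon H39Gon.E2

/-- every functional on `B_2(F)` with values in a `ℚ`-vector space comes from `Λ² F^*` -/
def EvSurj (F : Type) [Field F] : Prop :=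
  ∀ (j : ℕ) (θ : ZP F →ₗ[ℤ] (UV F [⋀^Fin j]→ₗ[ℤ] ℚ)), (∀ r ∈ R 2 F, θ r = 0) →
    ∃ Ψ : UV F →ₗ[ℤ] UV F →ₗ[ℤ] MultilinearMap ℤ (fun _ : Fin 0 => UV F)
      (UV F [⋀^Fin j]→ₗ[ℤ] ℚ), (∀ a, Ψ a a = 0) ∧ θ = ev Ψ

section General

variable {F : Type} [Field F] (hE : EvSurj F) (h1 : SpanDual F 1) (D : Differentials F)

include hE h1 in
theorem step_e' (j : ℕ) (φ : TQ F 2 j →ₗ[ℚ] ℚ)
    (hφ : ∀ (i : ℕ) (hi : j = i + 1) (x : F) (y : Fin i → UV F), x ≠ 0 →
      φ (tq F 2 j (some x)
        ((Fin.cons (cl x) y : Fin (i + 1) → UV F) ∘ Fin.cast hi)) = 0) :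
    ∃ ψ : LQ F (j + 2) →ₗ[ℚ] ℚ, ∀ v, φ v = ψ (D.e j v) := by
  obtain ⟨Ψ, hΨ, hev⟩ := hE j (toTheta φ) (fun r hr => toTheta_R φ r hr)
  have hnone : ∀ y, φ (tq F 2 j none y) = 0 := by
    intro y
    rw [← toTheta_apply, hev, ev_none]
    rfl
  have hsome : ∀ x y, φ (tq F 2 j (some x) y) =
      Ψ (cl (1 - x)) (cl x) (fun _ => cl x) y := by
    intro x y
    rw [← toTheta_apply, hev, ev_some]
  let Q : UV F →ₗ[ℤ] (UV F →ₗ[ℤ] (UV F [⋀^Fin j]→ₗ[ℤ] ℚ)) :=
    LinearMap.mk₂ ℤ (fun s v => Ψ v s Fin.elim0)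
      (fun a b c => by simp) (fun a b c => by simp) (fun a b c => by simp)
      (fun a b c => by simp)
  have hQ : ∀ s v, Q s v = Ψ v s (fun _ => s) := by
    intro s v
    change Ψ v s Fin.elim0 = _
    congr 1
    exact Subsingleton.elim _ _
  obtain ⟨Θ, hΘ⟩ := koszul_last j Q (by
      intro s
      rw [hQ, hΨ]
      rfl) (by
      intro i hi s v y
      subst hi
      have h1 := h1 (MultilinearMap.uncurryRight
        (M := fun _ : Fin (1 + 1) => UV F)
        ((flipTail y).compMultilinearMap (qOf Ψ))) (by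
          intro f hf0 hf1
          change qOf Ψ (fun _ => cl f) (cl (1 - f)) (Fin.cons (cl f) y) = 0
          rw [qOf_apply, ← hsome]
          exact hφ i rfl f y hf0) s v
      have h2 : qOf Ψ (fun _ => s) v (Fin.cons s y) = 0 := h1
      rw [qOf_apply] at h2
      rw [hQ]
      exact h2)
  refine ⟨ofAlt Θ, fun v => ?_⟩
  have h2 : φ = (ofAlt Θ) ∘ₗ (D.e j) := by
    apply text
    intro x y
    rw [LinearMap.comp_apply]
    rcases x with _ | x
    · rw [hnone, D.e_inf, map_zero]
    · by_cases hx : x = 0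
      · subst hx
        rw [D.e_zero, map_zero, hsome, cl_zero, map_zero]
        rfl
      · by_cases hx1 : x = 1
        · subst hx1
          rw [D.e_one, map_zero, hsome, sub_self, cl_zero, map_zero]
          rfl
        · rw [D.e_some j x y hx hx1, ofAlt_apply, hΘ, hQ, hsome]
  rw [h2]
  rfl

include hE h1 in
theorem inj_e : Function.Injective (D.e 0) := by
  apply injective_of_dual
  intro φ
  exact step_e' hE h1 D 0 φ (fun i hi => by omega)

include hE h1 in
theorem exact_e (j : ℕ) : Function.Exact (D.d 0 j) (D.e (j + 1)) := by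
  apply exact_of_dual
  · have h0 : (D.e (j + 1)) ∘ₗ (D.d 0 j) = 0 := by
      apply text
      intro x y
      rw [LinearMap.comp_apply, LinearMap.zero_apply]
      rcases x with _ | x
      · rw [D.d_inf, map_zero]
      · by_cases hx : x = 0
        · subst hx
          rw [D.d_zero, map_zero]
        · rw [D.d_some _ _ _ _ hx]
          by_cases hx1 : x = 1
          · subst hx1
            exact D.e_one _ _
          · rw [D.e_some _ _ _ hx hx1]
            unfold lq
            have h1 : exteriorPower.ιMulti ℤ (j + 1 + 2)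
                (Fin.cons (cl (1 - x)) (Fin.cons (cl x)
                  (Fin.cons (cl x) y : Fin (j + 1) → UV F) :
                    Fin (j + 1 + 1) → UV F)) = 0 :=
              AlternatingMap.map_eq_zero_of_eq _ _ (i := ⟨1, by omega⟩) (j := ⟨2, by omega⟩)
                (by rfl) (by simp [Fin.ext_iff])
            rw [h1, TensorProduct.tmul_zero]
    intro u
    exact LinearMap.congr_fun h0 u
  · intro φ hφ
    apply step_e' hE h1 D (j + 1) φ
    intro i hi x y hx
    obtain rfl : j = i := by omega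
    have h1 := hφ (tq F (0 + 3) j (some x) y)
    rw [D.d_some _ _ _ _ hx] at h1
    exact h1

theorem surj_e (h0 : SpanDual F 0) (j : ℕ) : Function.Surjective (D.e j) := by
  apply surjective_of_dual
  intro χ hχ
  apply lext
  intro z
  rw [LinearMap.zero_apply, ← toAlt_apply]
  have h1 : ∀ (y : Fin j → UV F) (s v : UV F),
      toAlt χ (Fin.cons v (Fin.cons s y)) = 0 := by
    intro y s v
    have h2 := h0 (MultilinearMap.ofSubsingleton ℤ (UV F)
      (UV F →ₗ[ℤ] ℚ) (0 : Fin 1)
      (LinearMap.flip ((evalTail y) ∘ₗ (toAlt χ).curryLeft))) (by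
        intro f hf0 hf1
        change toAlt χ (Fin.cons (cl (1 - f)) (Fin.cons (cl f) y)) = 0
        rw [toAlt_apply, ← D.e_some j f y hf0 hf1]
        exact hχ _) s v
    exact h2
  have h3 := h1 (Fin.tail (Fin.tail z)) (Fin.tail z 0) (z 0)
  rwa [Fin.cons_self_tail, Fin.cons_self_tail] at h3

end General

section Fun

variable (k : Type) [Field k] (p : ℕ) [Fact p.Prime] [CharP k p]
    (hk : ∀ c : k, ∃ r : ℕ, 1 ≤ r ∧ c ^ p ^ r = c) (D : Differentials (RatFunc k))

include hk in
theorem step_d0 (m : ℕ) (φ : TQ (RatFunc k) (m + 3) 0 →ₗ[ℚ] ℚ) :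
    ∃ ψ : TQ (RatFunc k) (m + 2) (0 + 1) →ₗ[ℚ] ℚ, ∀ v, φ v = ψ (D.d m 0 v) := by
  obtain ⟨Ψ, hΨ, hev⟩ := ev_surj k p hk (m + 1) (toTheta φ) (fun r hr => toTheta_R φ r hr)
  have hnone : ∀ y, φ (tq (RatFunc k) (m + 3) 0 none y) = 0 := by
    intro y
    rw [← toTheta_apply, hev, ev_none]
    rfl
  have hsome : ∀ x y, φ (tq (RatFunc k) (m + 3) 0 (some x) y) =
      Ψ (cl (1 - x)) (cl x) (fun _ => cl x) y := by
    intro x y
    rw [← toTheta_apply, hev, ev_some]
  obtain ⟨Q', hQ1, hQ2⟩ := koszul_step m 0 (qOf Ψ) (by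
      intro s
      rw [qOf_apply, hΨ]
      rfl) (by
      intro i hi
      omega)
  refine ⟨ofTheta (theta' Q') (theta'_R Q' hQ1), fun v => ?_⟩
  have h2 : φ = (ofTheta (theta' Q') (theta'_R Q' hQ1)) ∘ₗ (D.d m 0) := by
    apply text
    intro x y
    rw [LinearMap.comp_apply]
    rcases x with _ | x
    · rw [hnone, D.d_inf, map_zero]
    · by_cases hx : x = 0
      · subst hx
        rw [D.d_zero, map_zero, hsome, cl_zero, map_zero]
        rfl
      · rw [D.d_some m 0 x y hx, ofTheta_apply, theta'_some, hQ2, qOf_apply, hsome]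
  rw [h2]
  rfl

include hk in
theorem inj_d (m : ℕ) : Function.Injective (D.d m 0) := by
  apply injective_of_dual
  intro φ
  exact step_d0 k p hk D m φ

include hk in
theorem evSurj_fun : EvSurj (RatFunc k) := fun _ θ hθ => ev_surj k p hk 0 θ hθ

end Fun

/-- The conclusion for the differentials of `H39Gon`. -/
theorem low_main (p : ℕ) [Fact p.Prime] (k : Type) [Field k] [Algebra (ZMod p) k]
    [Algebra.IsAlgebraic (ZMod p) k] :
    Nonempty (Differentials (RatFunc k)) ∧ ∀ D : Differentials (RatFunc k),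
      (∀ m, Function.Injective (D.d m 0)) ∧ Function.Injective (D.e 0) ∧
      (∀ j, Function.Exact (D.d 0 j) (D.e (j + 1))) ∧ ∀ j, Function.Surjective (D.e j) := by
  haveI : CharP k p := charP_of_injective_algebraMap (algebraMap (ZMod p) k).injective p
  have hs := Y775.W3.span_poly k p
  have hk := frob_fix k p
  exact ⟨exists_differentials k p hk, fun D => ⟨inj_d k p hk D,
    inj_e (evSurj_fun k p hk) hs.2 D, exact_e (evSurj_fun k p hk) hs.2 D, surj_e D hs.1⟩⟩

end Pool.Agent.V119.GQ
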