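import Pool.Agent.V119.GQ.Low

set_option autoImplicit false

/-! # From `H¹(Γ(F, 2) ⊗ ℚ) = 0` to functionals on `B_2(F)`; the field `ℚ` -/

namespace Pool.Agent.V119.GQ

open scoped TensorProduct
open H39Gon H39Gon.E2

variable {F : Type} [Field F]

/-- `M → Hom(Λ⁰ V, M)` -/
noncomputable def g0 (V M : Type) [AddCommGroup V] [AddCommGroup M] :
    M →ₗ[ℤ] (⋀[ℤ]^0 V →ₗ[ℤ] M) :=
  (exteriorPower.alternatingMapLinearEquiv (R := ℤ) (n := 0) (M := V) (N := M)).toLinearMap ∘ₗ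
    (AlternatingMap.constLinearEquivOfIsEmpty (R' := ℤ) (M'' := V) (N'' := M)
      (ι := Fin 0)).toLinearMap

theorem g0_apply (V M : Type) [AddCommGroup V] [AddCommGroup M] (x : M) (y : Fin 0 → V) :
    g0 V M x (exteriorPower.ιMulti ℤ 0 y) = x := by
  unfold g0
  change (exteriorPower.alternatingMapLinearEquiv _) (exteriorPower.ιMulti ℤ 0 y) = _
  rw [exteriorPower.alternatingMapLinearEquiv_apply_ιMulti]
  rfl

/-- the extension of `θ` to `(B_2(F) ⊗ Λ⁰) ⊗ ℚ` -/
noncomputable def th0 {M : Type} [AddCommGroup M] [Module ℚ M] (θ : ZP F →ₗ[ℤ] M)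
    (h : ∀ r ∈ R 2 F, θ r = 0) : TQ F 2 0 →ₗ[ℚ] M :=
  LinearMap.liftBaseChange ℚ (TensorProduct.lift
    ((g0 (UV F) M) ∘ₗ ((R 2 F).liftQ θ (fun r hr => LinearMap.mem_ker.mpr (h r hr)))))

theorem th0_apply {M : Type} [AddCommGroup M] [Module ℚ M] (θ : ZP F →ₗ[ℤ] M)
    (h : ∀ r ∈ R 2 F, θ r = 0) (x : P1 F) (y : Fin 0 → UV F) :
    th0 θ h (tq F 2 0 x y) = θ (Finsupp.single x 1) := by
  have h1 : th0 θ h (tq F 2 0 x y) =
      (1 : ℚ) • g0 (UV F) M (θ (Finsupp.single x 1)) (exteriorPower.ιMulti ℤ 0 y) := rfl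
  rw [h1, one_smul, g0_apply]

theorem evSurj_of_inj (D : Differentials F) (hD : Function.Injective (D.e 0)) : EvSurj F := by
  intro j θ hθ
  obtain ⟨s, hs⟩ := LinearMap.exists_leftInverse_of_injective (D.e 0)
    (LinearMap.ker_eq_bot.2 hD)
  have hs' : ∀ v, s (D.e 0 v) = v := fun v => LinearMap.congr_fun hs v
  let A : UV F [⋀^Fin 2]→ₗ[ℤ] (UV F [⋀^Fin j]→ₗ[ℤ] ℚ) :=
    exteriorPower.alternatingMapLinearEquiv.symm ((((th0 θ hθ) ∘ₗ s).restrictScalars ℤ) ∘ₗ
      (TensorProduct.mk ℤ ℚ (⋀[ℤ]^2 (UV F)) 1))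
  have hA : ∀ y, A y = th0 θ hθ (s (lq F 2 y)) := fun y => rfl
  let Ψ : UV F →ₗ[ℤ] UV F →ₗ[ℤ] MultilinearMap ℤ (fun _ : Fin 0 => UV F)
      (UV F [⋀^Fin j]→ₗ[ℤ] ℚ) :=
    LinearMap.mk₂ ℤ (fun a b => MultilinearMap.constOfIsEmpty ℤ _ (A ![a, b]))
      (fun a a' b => by
        ext1 z
        change A ![a + a', b] = A ![a, b] + A ![a', b]
        exact AlternatingMap.map_vecCons_add A ![b] a a')
      (fun c a b => by
        ext1 z
        change A ![c • a, b] = c • A ![a, b]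
        exact AlternatingMap.map_vecCons_smul A ![b] c a)
      (fun a b b' => by
        ext1 z
        exact AlternatingMap.map_vecCons_add (A.curryLeft a) ![] b b')
      (fun c a b => by
        ext1 z
        exact AlternatingMap.map_vecCons_smul (A.curryLeft a) ![] c b)
  have hΨ : ∀ a b z, Ψ a b z = A ![a, b] := fun a b z => rfl
  refine ⟨Ψ, fun a => ?_, ?_⟩
  · ext1 z
    rw [hΨ]
    exact AlternatingMap.map_eq_zero_of_eq A ![a, a] (i := 0) (j := 1) rfl (by decide)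
  · apply Finsupp.lhom_ext'
    intro x
    apply LinearMap.ext_ring
    change θ (Finsupp.single x 1) = ev Ψ (Finsupp.single x 1)
    rw [← th0_apply θ hθ x Fin.elim0]
    rcases x with _ | x
    · rw [ev_none, ← hs' (tq F 2 0 none Fin.elim0), D.e_inf, map_zero, map_zero]
    · rw [ev_some, hΨ, hA]
      by_cases hx : x = 0
      · subst hx
        rw [← hs' (tq F 2 0 (some 0) Fin.elim0), D.e_zero, map_zero, map_zero, cl_zero]
        rw [← hA]
        exact (AlternatingMap.map_coord_zero A (i := 1) (by simp)).symm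
      · by_cases hx1 : x = 1
        · subst hx1
          rw [← hs' (tq F 2 0 (some 1) Fin.elim0), D.e_one, map_zero, map_zero, sub_self, cl_zero]
          rw [← hA]
          exact (AlternatingMap.map_coord_zero A (i := 0) (by simp)).symm
        · rw [← hs' (tq F 2 0 (some x) Fin.elim0), D.e_some 0 x Fin.elim0 hx hx1]
          congr 3

/-- The field `ℚ` (for the differentials of `H39Gon`). -/
theorem rat_main (D : Differentials ℚ) (hD : Function.Injective (D.e 0)) :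
    (∀ j, Function.Exact (D.d 0 j) (D.e (j + 1))) ∧ ∀ j, Function.Surjective (D.e j) :=
  ⟨exact_e (evSurj_of_inj D hD) Y775.W3.span_rat.2 D, surj_e D Y775.W3.span_rat.1⟩

end Pool.Agent.V119.GQ
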